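import Pool.Agent.H74.OD.Stm

/-!
# Project TR (MP_79abb3_an): ducts whose cross-section is an equilateral triangle

THEOREM. In a duct whose cross-section is an equilateral triangle of height `h`, all three sides of which are no-slip
walls (control on the two ends only), Poiseuille flow and all parallel flows `∑_i G(ell_i(x) - h/2)`, `G` odd and
square integrable, `ell_i` = distance to side `i`, are brought to rest in arbitrarily short time by parallel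
solutions of the Navier-Stokes equations. (In ducts with rectangular cross-section this is false: project CD.)

CONSTRUCTION. `z` = controlled solution of `z_t = z_xx`, `|x| < h`, odd in `x`, which is
`∑ b k e^{-μ_k² t} sin(μ_k x)`, `μ_k = 2(k+1)π/h = kap (h/2) k`, for `t ≤ T/2` and `0` for `t ≥ T` (OD.S_ONED with `Y = h`);
`w(t,x) = ∑_i z(t, ell_i(x) - h/2) - z(t, -h/2)`, pressure `p = z_t(t,-h/2) x_2`. As `∑ ell_i = h`, `w = 0` on the sides.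

Every stub: file `Pool/Agent/H74/TR/T/NAME.lean`, `import Pool.Agent.H74.TR.Stm`, namespace
`Pool.Agent.H74.TR.T.NAME`, `theorem main : S_NAME` (used stubs as hypotheses).
-/

set_option autoImplicit false

namespace Pool.Agent.H74.TR

open MeasureTheory Filter Topology Set
open scoped ENNReal
open Pool.Agent.H74.OD (kap One Rec bc S_INI S_DIS S_ONED)
open Pool.Agent.H74.CD (pd)

/-- distance of `(x 0, x 1)` to the side number `i` of the equilateral triangle of height `h` with the vertices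
`(0,0)`, `(2h/√3, 0)`, `(h/√3, h)` (affine function) -/
noncomputable def ell (h : ℝ) (i : Fin 3) (x : Fin 3 → ℝ) : ℝ :=
  ![x 1, (√3 * x 0 - x 1) / 2, h - (√3 * x 0 + x 1) / 2] i

/-- the infinite duct with its walls -/
def TriC (h : ℝ) : Set (Fin 3 → ℝ) := {x | ∀ i, 0 ≤ ell h i x}

/-- the piece `|x_2| < c` of the open duct -/
def TriD (h c : ℝ) : Set (Fin 3 → ℝ) := {x | (∀ i, 0 < ell h i x) ∧ |x 2| < c}

/-- `u`, `p` is a parallel solution of the Navier-Stokes equations (unit viscosity) in the closed duct, `t > 0`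
(regular in a neighbourhood `N`), zero on the three walls, at rest for `t ≥ T`, with initial velocity `(0, 0, w₀)` and
finite total dissipation in every bounded piece. -/
structure Stopped (h T : ℝ) (w₀ : (Fin 3 → ℝ) → ℝ) (u : ℝ → (Fin 3 → ℝ) → (Fin 3 → ℝ))
    (p : ℝ → (Fin 3 → ℝ) → ℝ) : Prop where
  regular : ∃ N : Set (Fin 3 → ℝ), IsOpen N ∧ TriC h ⊆ N ∧
    ContDiffOn ℝ 1 (fun q : ℝ × (Fin 3 → ℝ) => u q.1 q.2) (Ioi 0 ×ˢ N) ∧
    (∀ t, 0 < t → ContDiffOn ℝ 2 (u t) N) ∧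
    ∀ i k : Fin 3, ContinuousOn
      (fun q : ℝ × (Fin 3 → ℝ) => pd i (fun y => pd i (fun z => u q.1 z k) y) q.2) (Ioi 0 ×ˢ N)
  pressure : (∀ t, 0 < t → Differentiable ℝ (p t)) ∧
    ContinuousOn (fun q : ℝ × (Fin 3 → ℝ) => p q.1 q.2) (Ioi 0 ×ˢ univ)
  axial : ∀ t x, u t x 0 = 0 ∧ u t x 1 = 0
  momentum : ∀ t, 0 < t → ∀ x ∈ TriC h, ∀ k : Fin 3,
    deriv (fun s => u s x k) t + ∑ i, u t x i * pd i (fun y => u t y k) x + pd k (p t) x =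
      ∑ i, pd i (fun y => pd i (fun z => u t z k) y) x
  div : ∀ t, 0 < t → ∀ x ∈ TriC h, ∑ i, pd i (fun y => u t y i) x = 0
  wall : ∀ t, 0 < t → ∀ x ∈ TriC h, (∃ i, ell h i x = 0) → u t x = 0
  rest : ∀ t, T ≤ t → ∀ x ∈ TriC h, u t x = 0
  initial : ∀ c, 0 < c → Tendsto (fun t => ∫⁻ x in TriD h c, ‖u t x 2 - w₀ x‖ₑ ^ 2) (𝓝[>] 0) (𝓝 0)
  energy : ∀ c, 0 < c → ∫⁻ t in Ioi (0 : ℝ), ∫⁻ x in TriD h c,
    ∑ i, ∑ k, ‖pd i (fun y => u t y k) x‖ₑ ^ 2 < ⊤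

/-- the parallel flow made of `z` -/
noncomputable def tri (h : ℝ) (z : ℝ → ℝ → ℝ) (t : ℝ) (x : Fin 3 → ℝ) : Fin 3 → ℝ :=
  ![0, 0, ∑ i, z t (ell h i x - h / 2) - z t (-(h / 2))]

/-- neighbourhood of the closed duct -/
def Nb (h : ℝ) : Set (Fin 3 → ℝ) := {x | ∀ i, |ell h i x - h / 2| < h}

/-- `∂_i ell_j` -/
noncomputable def cf (j i : Fin 3) : ℝ :=
  ![![0, 1, 0], ![√3 / 2, -(1 / 2), 0], ![-(√3 / 2), -(1 / 2), 0]] j i

/-- sine coefficients of `G` on `(0,Y)` -/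
noncomputable def sc (Y : ℝ) (G : ℝ → ℝ) (k : ℕ) : ℝ := 2 / Y * ∫ y in Ioo 0 Y, G y * Real.sin (kap Y k * y)

/-- **INI** (90 lines). `theorem main (h : OD.S_INI) : S_INI1`. One dimensional version of `OD.S_INI`.
PROOF. Apply `OD.S_INI` with `B = Y` and `v q = G q.1 * sin(kap Y 0 * q.2)`: `bc Y Y v k n = sc Y G k` if `n = 0`, else `0`
(`∫_0^Y sin(kap Y 0 y) sin(kap Y n y) = Y/2 δ`), so the series there is `F(t,x) e^{-kap Y 0 ^2 t} sin(kap Y 0 y)` and its square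
distance to `v` is `Y/2 ∫ (e^{-κ₀² t} F - G)²` (Tonelli). `‖F - G‖ ≤ e^{κ₀² t} (‖e^{-κ₀² t}F - G‖ + (1 - e^{-κ₀² t})‖G‖)`. (Or directly: Parseval for the sine
series on `(0,Y)`, see the library file `Pool/Agent/H74/CD/T/CPL1.lean` or copy `Pool/Agent/H74/OD/T/{PAR,INI}.lean` in one dimension.) -/
def S_INI1 : Prop := ∀ (Y : ℝ) (G : ℝ → ℝ), 0 < Y → MemLp G 2 (volume.restrict (Ioo 0 Y)) →
  Tendsto (fun t : ℝ => ∫⁻ y in Ioo 0 Y, ‖(∑' k : ℕ, sc Y G k * Real.exp (-(kap Y k ^ 2 * t)) *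
    Real.sin (kap Y k * y)) - G y‖ₑ ^ 2) (𝓝[>] 0) (𝓝 0)

/-- **DIS** (90 lines). `theorem main (h : OD.S_DIS) : S_DIS1`. One dimensional version of `OD.S_DIS` (only `t ≤ 1` is needed here).
PROOF. The same `v` in `OD.S_DIS`: the first term is `‖Fx(t,x) e^{-κ₀² t} sin(κ₀ y)‖²`, its integral over `y` is `Y/2 e^{-2κ₀² t} |Fx|²`, and
`e^{-2κ₀² t} ≥ e^{-2κ₀²}` for `t ≤ 1`. (Or directly: `∫ Fx² = Y/2 ∑ sc² κ² e^{-2κ²t}`, Bessel.) -/
def S_DIS1 : Prop := ∀ (Y : ℝ) (G : ℝ → ℝ), 0 < Y → MemLp G 2 (volume.restrict (Ioo 0 Y)) →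
  ∫⁻ t in Ioc (0 : ℝ) 1, ∫⁻ y in Ioo 0 Y, ‖∑' k : ℕ, sc Y G k * Real.exp (-(kap Y k ^ 2 * t)) *
    (kap Y k * Real.cos (kap Y k * y))‖ₑ ^ 2 < ⊤

/-- **BD1** (30 lines). Bounded coefficients: `|sc| ≤ 2/Y ∫|G|`, `L² ⊂ L¹` on a bounded interval. -/
def S_BD1 : Prop := ∀ (Y : ℝ) (G : ℝ → ℝ), 0 < Y → MemLp G 2 (volume.restrict (Ioo 0 Y)) →
  ∃ M : ℝ, 0 < M ∧ ∀ k, |sc Y G k| ≤ M

/-- **SPR** (50 lines). `theorem main (h : OD.S_ONED) : S_SPR`. Coefficients on the odd indices.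
PROOF. `OD.S_ONED` with `Y = h`, `b' (2k+1) = b k`, `b' (2k) = 0` (`b' n = if n % 2 = 1 then b (n/2) else 0`): `kap h (2k+1) = kap (h/2) k`,
`tsum_even_add_odd` or `tsum_eq_tsum_of_ne_zero_bij`/`Function.Injective.tsum_eq` with `k ↦ 2k+1`. Oddness of `z` for `t ≤ T/2` only is in the
formula; here it is wanted for all `t`: replace `z t x` by `(z t x - z t (-x))/2` (and `zx` by `(zx t x + zx t (-x))/2`, `zt`, `zxx` like `z`); for
`t ≤ T/2` nothing changes, because sine is odd. -/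
def S_SPR : Prop := ∀ h T M : ℝ, 0 < h → 0 < T → 0 < M → ∀ b : ℕ → ℝ, (∀ k, |b k| ≤ M) →
  ∃ (b' : ℕ → ℝ) (z zt zx zxx : ℝ → ℝ → ℝ), One h T b' z zt zx zxx ∧
    (∀ t x, 0 < t → |x| < h → z t (-x) = -z t x) ∧
    (∀ t x, 0 < t → t ≤ T / 2 → |x| < h →
      z t x = ∑' k : ℕ, b k * Real.exp (-(kap (h / 2) k ^ 2 * t)) * Real.sin (kap (h / 2) k * x)) ∧
    (∀ t x, 0 < t → t ≤ T / 2 → |x| < h →
      zx t x = ∑' k : ℕ, b k * Real.exp (-(kap (h / 2) k ^ 2 * t)) * (kap (h / 2) k * Real.cos (kap (h / 2) k * x)))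

/-- **CHV** (100 lines). Functions of `ell_i` on the piece of the duct.
PROOF. `i = 0`: `ell = x 1 ∈ (0,h)`, `x 0 ∈ (0, 2h/√3)`, `x 2 ∈ (-c,c)` (Tonelli). `i = 1`: for fixed `x 1 ∈ (0,h)`, `x 2 ∈ (-c,c)` the map
`x 0 ↦ ell` is affine with slope `√3/2`; `i = 2`: slope `-√3/2`. On `TriD h c` all `ell_i` lie in `(0,h)` (their sum is `h`). -/
def S_CHV : Prop := ∀ h c : ℝ, 0 < h → 0 < c → ∃ C : ℝ≥0∞, C ≠ ⊤ ∧ ∀ (i : Fin 3) (F : ℝ → ℝ≥0∞),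
  AEMeasurable F (volume.restrict (Ioo 0 h)) →
  ∫⁻ x in TriD h c, F (ell h i x) ≤ C * ∫⁻ y in Ioo 0 h, F y

/-- **REG** (130 lines). Derivatives and regularity of `tri h z` on `Nb h`.
PROOF. `(t,s) ↦ z t s` is `C¹` on `0 < t`, `|s| < h` (continuous partial derivatives `zt = zxx`, `zx`; see the lemmas `cd0`, `cd1` of
`Pool/Agent/H74/OD/T/NSP.lean`, importable), `z t` and `zx t` too; compose with the affine maps `ell h i`; `pd i (ell h j) = cf j i`. -/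
def S_REG : Prop := ∀ (h T : ℝ) (b : ℕ → ℝ) (z zt zx zxx : ℝ → ℝ → ℝ), 0 < h → One h T b z zt zx zxx →
  IsOpen (Nb h) ∧ TriC h ⊆ Nb h ∧
  ContDiffOn ℝ 1 (fun q : ℝ × (Fin 3 → ℝ) => tri h z q.1 q.2) (Ioi 0 ×ˢ Nb h) ∧
  (∀ t, 0 < t → ContDiffOn ℝ 2 (tri h z t) (Nb h)) ∧
  ∀ t, 0 < t → ∀ x ∈ Nb h,
    (∀ i k : Fin 3, k ≠ 2 → pd i (fun y => tri h z t y k) x = 0) ∧
    (∀ i : Fin 3, pd i (fun y => tri h z t y 2) x = ∑ j, cf j i * zx t (ell h j x - h / 2)) ∧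
    (∀ i : Fin 3, pd i (fun y => pd i (fun v => tri h z t v 2) y) x = ∑ j, cf j i ^ 2 * zxx t (ell h j x - h / 2))

/-- **EQS** (90 lines). `theorem main (h : S_REG) : S_EQS`. Momentum equation, divergence, walls.
PROOF. `deriv (fun s => tri h z s x 2) t = ∑ zt t (ell_j - h/2) - zt t (-(h/2))`, `∑_i cf j i ^ 2 = 1`, `zt = zxx`; `pd 2 p = zt t (-(h/2))`. Third
components of gradients: `cf j 2 = 0`. Walls: if `ell_i = 0` the other two add up to `h`, so their arguments are `s` and `-s`. -/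
def S_EQS : Prop := ∀ (h T : ℝ) (b : ℕ → ℝ) (z zt zx zxx : ℝ → ℝ → ℝ), 0 < h → One h T b z zt zx zxx →
  (∀ t x, 0 < t → |x| < h → z t (-x) = -z t x) →
  (∀ t, 0 < t → ∀ x ∈ TriC h, ∀ k : Fin 3,
    deriv (fun s => tri h z s x k) t + ∑ i, tri h z t x i * pd i (fun y => tri h z t y k) x +
      pd k (fun y => zt t (-(h / 2)) * y 2) x =
      ∑ i, pd i (fun y => pd i (fun v => tri h z t v k) y) x) ∧
  (∀ t, 0 < t → ∀ x ∈ TriC h, ∑ i, pd i (fun y => tri h z t y i) x = 0) ∧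
  (∀ t, 0 < t → ∀ x ∈ TriC h, (∃ i, ell h i x = 0) → tri h z t x = 0) ∧
  (T > 0 → ∀ t, T ≤ t → ∀ x ∈ TriC h, tri h z t x = 0)

/-- **FIN** (150 lines). `theorem main (hs : S_SPR) (hi : S_INI1) (hd : S_DIS1) (hb : S_BD1) (hc : S_CHV) (hr : S_REG) (he : S_EQS) : S_FIN`.
PROOF. `b = sc (h/2) G`, `u = tri h z`, `p t x = zt t (-(h/2)) * x 2`. For `t ≤ T/2`: `z t (-(h/2)) = 0` (`sin(kap (h/2) k * (h/2)) = 0`), so the distance
in `initial` is `∑_i (z t (ell_i - h/2) - G (ell_i - h/2))`, CHV with `F y = ‖z t (y-h/2) - G (y-h/2)‖ₑ²`, translate by `h/2`, and split `(-h/2,h/2)` at `0`: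
both halves are equal (`z t`, `G` odd), INI1 with `Y = h/2`. Energy: `t ≤ min(T/2,1)`: REG, CHV, DIS1 (`zx` even); for
`min(T/2,1) ≤ t ≤ T` `zx` is continuous and bounded on `|x| ≤ h/2`; for `t > T` `zx = 0` (`z t = 0` on `|x| < h`). -/
def S_FIN : Prop := ∀ (h T : ℝ) (G : ℝ → ℝ), 0 < h → 0 < T → (∀ s, G (-s) = -G s) →
  MemLp G 2 (volume.restrict (Ioo 0 (h / 2))) →
  ∃ (u : ℝ → (Fin 3 → ℝ) → (Fin 3 → ℝ)) (p : ℝ → (Fin 3 → ℝ) → ℝ),
    Stopped h T (fun x => ∑ i, G (ell h i x - h / 2)) u p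

/-- **POI** (40 lines). `theorem main (h : S_FIN) : S_POI`. Poiseuille flow.
PROOF. `ell_0 ell_1 ell_2 = ∑_i G₀(ell_i - h/2)`, `G₀(s) = (s³ - h²/4 s)/3`, as `∑ ell_i = h` (`ell` unfolded: `√3² = 3`, `ring`/`linear_combination`). -/
def S_POI : Prop := ∀ h T κ : ℝ, 0 < h → 0 < T →
  ∃ (u : ℝ → (Fin 3 → ℝ) → (Fin 3 → ℝ)) (p : ℝ → (Fin 3 → ℝ) → ℝ),
    Stopped h T (fun x => κ * (ell h 0 x * ell h 1 x * ell h 2 x)) u p

end Pool.Agent.H74.TR
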